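import Mathlib
import Pool.Agent.Y760.ZF.DSa

/-!
# Linear relations of bounded length between multiple zeta values are double shuffle relations

All multiple zeta values of depth at most `r` are allowed whose first argument is at least `n` and
whose arguments are at most `κ n`; the arguments are otherwise arbitrary integers, and `n0` does not
depend on them. A rational linear relation between at most `N` of them and at most `N` shuffle
products of two of them, with coefficients at most `C ^ n`, is the obvious combination of double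
shuffle relations. In particular such multiple zeta values satisfy no linear relation with at most
`N` terms and coefficients at most `C ^ n`. The constant `C` is arbitrary.

The proof uses the subspace theorem through germs (helper files `Pool.Agent.Y760.ZG`,
`Pool.Agent.Y760.ZF`, `Pool.Agent.TH796.AL`) and a zero estimate for truncated multiple zeta values
which is uniform in the arguments.
-/

set_option autoImplicit false

namespace Pool.Agent.Results.MP_154526_nt.UniformDoubleShuffle

/-- `trunc [s_1, ..., s_r] m` is the sum of `∏ k_i ^ (-s_i)` over `m > k_1 > ... > k_r ≥ 1` -/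
noncomputable def trunc : List ℕ → ℕ → ℝ
  | [], _ => 1
  | s :: l, m => ∑ j ∈ Finset.Ico 1 m, trunc l j / (j : ℝ) ^ s

/-- the multiple zeta value `ζ(s_1, ..., s_r)`, `s_1` belongs to the largest variable -/
noncomputable def mzv : List ℕ → ℝ
  | [] => 1
  | s :: l => ∑' k : ℕ, trunc l (k + 1) / ((k + 1 : ℕ) : ℝ) ^ s

/-- the word `y_{k_1} ... y_{k_t}`, where `y_k = x ^ (k - 1) y`, `x = false`, `y = true` -/
def word : List ℕ → List Bool
  | [] => []
  | k :: l => List.replicate (k - 1) false ++ true :: word l

/-- `index 0 w` is the list of the `k_i` for the word `w = y_{k_1} ... y_{k_t}` -/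
def index : ℕ → List Bool → List ℕ
  | _, [] => []
  | c, true :: u => (c + 1) :: index 0 u
  | c, false :: u => index (c + 1) u

/-- the list of the shuffles of two words -/
def shuffles : List Bool → List Bool → List (List Bool)
  | [], v => [v]
  | a :: u, [] => [a :: u]
  | a :: u, b :: v => (shuffles u (b :: v)).map (a :: ·) ++ (shuffles (a :: u) v).map (b :: ·)
termination_by u v => u.length + v.length

/-- the list of the indices in the stuffle product of two indices -/
def stuffles : List ℕ → List ℕ → List (List ℕ)
  | [], l => [l]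
  | i :: k, [] => [i :: k]
  | i :: k, j :: l => (stuffles k (j :: l)).map (i :: ·) ++ (stuffles (i :: k) l).map (j :: ·) ++
      (stuffles k l).map ((i + j) :: ·)
termination_by k l => k.length + l.length

/-- integer combinations of words -/
abbrev H : Type := List Bool →₀ ℤ

/-- the sum of a list of words -/
noncomputable def total (L : List (List Bool)) : H := (L.map fun w => Finsupp.single w 1).sum

/-- the linear map `Z` with `Z (y_{k_1} ... y_{k_t}) = ζ(k_1, ..., k_t)` -/
noncomputable def Z : H →ₗ[ℤ] ℝ := Finsupp.linearCombination ℤ fun w => mzv (index 0 w)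

/-- the shuffle product of the words `y_{k_1} ... y_{k_s}` and `y_{l_1} ... y_{l_t}` -/
noncomputable def shuffle (k l : List ℕ) : H := total (shuffles (word k) (word l))

/-- the stuffle product of the words `y_{k_1} ... y_{k_s}` and `y_{l_1} ... y_{l_t}` -/
noncomputable def stuffle (k l : List ℕ) : H := total ((stuffles k l).map word)

/-- the double shuffle element -/
noncomputable def doubleShuffle (k l : List ℕ) : H := shuffle k l - stuffle k l

/-- the indices of depth at most `r` whose first argument is at least `n` and whose arguments are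
positive and at most `κ n` -/
def Admissible (r : ℕ) (κ : ℝ) (n : ℕ) (w : List ℕ) : Prop :=
  w.length ≤ r ∧ (∀ m ∈ w, 1 ≤ m ∧ (m : ℝ) ≤ κ * n) ∧ ∀ k ∈ w.head?, n ≤ k

/-- the element `a + ∑ c_w w + ∑ d_(u, v) (u shuffle v)` -/
noncomputable def element (L : Finset (List ℕ)) (P : Finset (List ℕ × List ℕ)) (a : ℤ)
    (c : List ℕ → ℤ) (d : List ℕ × List ℕ → ℤ) : H :=
  a • Finsupp.single [] 1 + ∑ w ∈ L, c w • Finsupp.single (word w) 1 +
    ∑ p ∈ P, d p • shuffle p.1 p.2

/-- For natural numbers `N`, `r` and real numbers `κ`, `C` there are `B > 1` and `n0` such that for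
all `n ≥ n0`, all sets `L` of at most `N` admissible indices, all sets `P` of at most `N` pairs of
admissible indices and all integers `a`, `c w`, `d p` with `|c w|, |d p| ≤ C ^ n`, the element
`f = a + ∑ c_w w + ∑ d_(u, v) (u shuffle v)` is the integer combination `∑ d_(u, v) (u shuffle v -
u stuffle v)` of double shuffle elements, with `Z f = 0`, or `|Z f| > B ^ (-n)`. -/
theorem result (N r : ℕ) (κ C : ℝ) :
    ∃ B : ℝ, 1 < B ∧ ∃ n0 : ℕ, ∀ n : ℕ, n0 ≤ n → ∀ (L : Finset (List ℕ))
      (P : Finset (List ℕ × List ℕ)), L.card ≤ N → P.card ≤ N →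
      (∀ w ∈ L, Admissible r κ n w) →
      (∀ p ∈ P, Admissible r κ n p.1 ∧ Admissible r κ n p.2) →
      ∀ (a : ℤ) (c : List ℕ → ℤ) (d : List ℕ × List ℕ → ℤ),
      (∀ w ∈ L, |(c w : ℝ)| ≤ C ^ n) → (∀ p ∈ P, |(d p : ℝ)| ≤ C ^ n) →
      (element L P a c d = ∑ p ∈ P, d p • doubleShuffle p.1 p.2 ∧ Z (element L P a c d) = 0) ∨
        (B ^ n)⁻¹ < |Z (element L P a c d)| := by
  have h1 : ∀ l m, trunc l m = Pool.Agent.TH507.WD.hr l m := by
    intro l
    induction l with
    | nil => intro m; rw [trunc, Pool.Agent.TH507.WD.hr]
    | cons s l ih =>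
      intro m
      rw [trunc, Pool.Agent.TH507.WD.hr]
      exact Finset.sum_congr rfl fun j _ => by rw [ih]
  have h2 : ∀ l, mzv l = Pool.Agent.TH507.WD.mz l := by
    intro l
    cases l with
    | nil => rw [mzv, Pool.Agent.TH507.WD.mz]
    | cons s l =>
      rw [mzv, Pool.Agent.TH507.WD.mz]
      exact tsum_congr fun k => by rw [h1]
  have h3 : ∀ l, word l = Pool.Agent.TH507.DS.word l := by
    intro l
    induction l with
    | nil => rfl
    | cons k l ih => rw [word, Pool.Agent.TH507.DS.word, ih]
  have h4 : ∀ u c, index c u = Pool.Agent.TH507.DS.decA c u := by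
    intro u
    induction u with
    | nil => intro c; rw [index, Pool.Agent.TH507.DS.decA]
    | cons b u ih =>
      intro c
      cases b with
      | true => rw [index, Pool.Agent.TH507.DS.decA, ih]
      | false => rw [index, Pool.Agent.TH507.DS.decA, ih]
  have h5 : ∀ u v, shuffles u v = Pool.Agent.TH507.DS.sh u v := by
    intro u v
    induction u, v using Pool.Agent.TH507.DS.sh.induct with
    | case1 v => rw [shuffles, Pool.Agent.TH507.DS.sh]
    | case2 a u => rw [shuffles, Pool.Agent.TH507.DS.sh]
    | case3 a u b v ih1 ih2 => rw [shuffles, Pool.Agent.TH507.DS.sh, ih1, ih2]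
  have h6 : ∀ k l, stuffles k l = Pool.Agent.TH507.DS.stI k l := by
    intro k l
    induction k, l using Pool.Agent.TH507.DS.stI.induct with
    | case1 l => rw [stuffles, Pool.Agent.TH507.DS.stI]
    | case2 i k => rw [stuffles, Pool.Agent.TH507.DS.stI]
    | case3 i k j l ih1 ih2 ih3 => rw [stuffles, Pool.Agent.TH507.DS.stI, ih1, ih2, ih3]
  have h7 : ∀ k l, shuffle k l = Pool.Agent.TH507.DS.el (Pool.Agent.TH507.DS.sh
      (Pool.Agent.TH507.DS.word k) (Pool.Agent.TH507.DS.word l)) := by
    intro k l
    rw [shuffle, h3, h3, h5]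
    rfl
  have h8 : ∀ k l, stuffle k l = Pool.Agent.TH507.DS.el ((Pool.Agent.TH507.DS.stI k l).map
      Pool.Agent.TH507.DS.word) := by
    intro k l
    rw [stuffle, h6, funext h3]
    rfl
  have h9 : ∀ k l, doubleShuffle k l = Pool.Agent.TH507.DS.ds k l := by
    intro k l
    rw [doubleShuffle, h7, h8]
    rfl
  have h10 : Z = Pool.Agent.TH507.DS.Zh := by
    rw [Z, Pool.Agent.TH507.DS.Zh]
    congr 1
    funext w
    rw [h2, h4]
  have h12 : ∀ L P a c d, element L P a c d = Pool.Agent.Y760.ZF.elt L P a c d := by
    intro L P a c d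
    rw [element, Pool.Agent.Y760.ZF.elt]
    simp only [h3, h7]
  simp only [h12, h9, h10]
  exact Pool.Agent.Y760.ZF.dsA N r κ C

end Pool.Agent.Results.MP_154526_nt.UniformDoubleShuffle
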